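import Pool.Agent.NH34.Res.Defs
import Pool.Agent.NH34.ZO.TateLaw
import Pool.Agent.NH34.SS.Dich

/-!
# Restriction of Galois actions
-/

open CategoryTheory AlgebraicGeometry

universe u v w w'

namespace Pool.Agent.NH34.Res

open Pool.Agent.H914 Pool.Agent.H914.VarClass Pool.Agent.H914.VarClass.Obj
  Pool.Agent.H914.WeilCohomology
open Pool.Agent.NH34.Lin Pool.Agent.NH34.Gal Pool.Agent.NH34.SS Pool.Agent.NH34.ZO
open Pool.Agent.Y133.Half Pool.Agent.Y133.Half.Sys

variable {k : Type u} [Field k] {𝒱 : VarClass k} {ops : CycleOps 𝒱}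
  {W : WeilCohomology.{u, v} ops} {Γ : Type w} [Group Γ] {Γ' : Type w'} [Group Γ']
  {G : ActionData W Γ} {X Y Z : 𝒱.Obj}

lemma finiteIndex_comap {Δ : Subgroup Γ} (hΔ : Δ.FiniteIndex) (φ : Γ' →* Γ) :
    (Δ.comap φ).FiniteIndex := by
  constructor
  rw [Subgroup.index_comap]
  exact Subgroup.FiniteIndex.index_ne_zero (H := Δ.subgroupOf φ.range)

lemma ForSmall.pull {P : Γ → Prop} (h : ForSmall P) (φ : Γ' →* Γ) : ForSmall fun g => P (φ g) := by
  obtain ⟨Δ, hΔ, h⟩ := h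
  exact ⟨Δ.comap φ, finiteIndex_comap hΔ φ, fun g hg => h _ hg⟩

lemma pull_theory (hG : IsGaloisTheory G) (φ : Γ' →* Γ) : IsGaloisTheory (pull G φ) where
  finite X := finiteIndex_comap (hG.finite X) φ
  gr_mem X g i x hx := hG.gr_mem X _ i x hx
  tr_act X g a := hG.tr_act X _ a
  map_act X Y f := (ForSmall.pull (hG.map_act X Y f) φ).mono fun g h hX hY b => h hX hY b
  cl_act X j z hz := (ForSmall.pull (hG.cl_act X j z hz) φ).mono fun g h hX => h hX

lemma IsTate.pull {j : ℕ} {c : W.H X} (hc : IsTate G X j c) (φ : Γ' →* Γ) :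
    IsTate (pull G φ) X j c :=
  ⟨hc.1, (ForSmall.pull hc.2 φ).mono fun _ h hX => h hX⟩

/-- **The law of specialisation for Tate classes.** -/
theorem special [TopologicalSpace Γ] [IsTopologicalGroup Γ] [CompactSpace Γ]
    [TotallyDisconnectedSpace Γ] {ℓ : ℕ} [Fact ℓ.Prime] {e : W.K ≃+* ℚ_[ℓ]}
    (hG : IsGaloisTheory G) (hc : IsContinuousTheory e G) (φ : Γ' →* Γ)
    (h : ¬ SS.Negligible (fun n => tateRank G (pw X n)) (fun n => tateDim (pull G φ) (pw X n)))
    {n j : ℕ} {c : W.H (pw X n)} (hcj : IsTate (Res.pull G φ) (pw X n) j c) :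
    IsTate G (pw X n) j c := by
  have hG' := pull_theory hG φ
  have h1 : ¬ Negl (tatePred hG).sys (tatePred hG').sys X := by
    intro h'
    refine h fun N => ?_
    obtain ⟨n₀, h0⟩ := h' N
    refine ⟨n₀, fun n hn => ?_⟩
    have := h0 n hn
    rw [tateRank_eq hG] at this
    exact this
  refine isTate_of_not_negl hG hc (S := (tatePred hG).sys) (T := (tatePred hG').sys) ?_
    (fun _ => le_rfl) h1 (ClassPred.sp_of (Q := tatePred hG') (j := j) hcj) hcj.1
  intro Z
  exact Submodule.span_mono fun c ⟨j, hj⟩ => ⟨j, IsTate.pull hj φ⟩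

end Pool.Agent.NH34.Res
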