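import Pool.Agent.NH34.Res.Basic
import Pool.Agent.NH34.SS.Proj
import Pool.Agent.H914R2.GConv

/-!
# Commuting operators
-/

open CategoryTheory AlgebraicGeometry

universe u v w w'

namespace Pool.Agent.NH34.Res

open Module
open Pool.Agent.H914 Pool.Agent.H914.VarClass Pool.Agent.H914.VarClass.Obj
  Pool.Agent.H914.WeilCohomology
open Pool.Agent.NH34.Lin Pool.Agent.NH34.Gal Pool.Agent.NH34.SS Pool.Agent.NH34.ZO
open Pool.Agent.Y133.Half

variable {k : Type u} [Field k] {𝒱 : VarClass k} {ops : CycleOps 𝒱}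
  {W : WeilCohomology.{u, v} ops} {Γ : Type w} [Group Γ]
  {G : ActionData W Γ} {X Y Z : 𝒱.Obj}

/-- The action on correspondences. -/
lemma act_corr (hG : IsGaloisTheory G) (X : 𝒱.Obj) : ForSmall fun g =>
    ∀ (hX : g ∈ G.D X) (hZ : g ∈ G.D (X.prod X)) (c : W.H (X.prod X)) (a : W.H X),
      (G.χ g : W.K) ^ X.dim • G.act X ⟨g, hX⟩ (W.corr c a) =
        W.corr (G.act (X.prod X) ⟨g, hZ⟩ c) (G.act X ⟨g, hX⟩ a) := by
  refine ((push_act hG (snd X X)).and (hG.map_act _ _ (fst X X))).mono ?_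
  rintro g ⟨h2, h3⟩ hX hZ c a
  have h4 := h2 hZ hX (c * W.map (fst X X) a)
  rw [map_mul (G.act (X.prod X) ⟨g, hZ⟩), h3 hZ hX] at h4
  rw [corr_apply, corr_apply]
  have e : (X.prod X).dim = X.dim + X.dim := by rw [dim_prod]
  rw [e, pow_add, ← smul_smul] at h4
  exact smul_right_injective (W.H X) (pow_ne_zero X.dim (G.χ g).ne_zero) h4

/-- The class of an operator of degree zero. -/
lemma cls_mem {c : W.H (X.prod X)} (hB : ∀ i, ∀ x ∈ W.gr X i, W.corr c x ∈ W.gr X i) :
    c ∈ W.gr (X.prod X) (2 * X.dim) := by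
  have h1 : W.corr (H914.proj (W.isInternal (X.prod X)) (2 * X.dim) c) = W.corr c := by
    apply LinearMap.ext
    intro x
    refine gr_induction (W.isInternal X) (p := fun x =>
      W.corr (H914.proj (W.isInternal (X.prod X)) (2 * X.dim) c) x = W.corr c x) ?_ ?_ x
    · intro i x hx
      rw [← proj_corr hx, proj_same _ (hB i x hx)]
    · intro x y hx hy
      rw [map_add, hx, hy, map_add]
  have h2 : H914.proj (W.isInternal (X.prod X)) (2 * X.dim) c = c :=
    (corrEquiv W X).injective h1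
  rw [← h2]
  exact proj_mem _ _ _

/-- The classes of the operators of degree zero which commute with the powers of `g`. -/
def cen (G : ActionData W Γ) (X : 𝒱.Obj) (g : Γ) : Submodule W.K (W.H (X.prod X)) where
  carrier := {c | (∀ i, ∀ x ∈ W.gr X i, W.corr c x ∈ W.gr X i) ∧
    ∀ d : G.D X, (d : Γ) ∈ Subgroup.zpowers g → ∀ a,
      W.corr c (G.act X d a) = G.act X d (W.corr c a)}
  add_mem' := by
    rintro A B ⟨hA, hA'⟩ ⟨hB, hB'⟩
    refine ⟨fun i x hx => ?_, fun d hd a => ?_⟩
    · rw [corr_add, LinearMap.add_apply]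
      exact Submodule.add_mem _ (hA i x hx) (hB i x hx)
    · rw [corr_add, LinearMap.add_apply, LinearMap.add_apply, hA' d hd, hB' d hd, map_add]
  zero_mem' := by
    refine ⟨fun i x hx => ?_, fun d hd a => ?_⟩
    · rw [corr_zero, LinearMap.zero_apply]; exact Submodule.zero_mem _
    · rw [corr_zero, LinearMap.zero_apply, LinearMap.zero_apply, map_zero]
  smul_mem' := by
    rintro r A ⟨hA, hA'⟩
    refine ⟨fun i x hx => ?_, fun d hd a => ?_⟩
    · rw [corr_smul, LinearMap.smul_apply]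
      exact Submodule.smul_mem _ _ (hA i x hx)
    · rw [corr_smul, LinearMap.smul_apply, LinearMap.smul_apply, hA' d hd, map_smul]

/-- The classes of these operators are Tate classes for `g`. -/
lemma cen_tate (hG : IsGaloisTheory G) {g : Γ} {c : W.H (X.prod X)}
    (hc : c ∈ cen G X g) : IsTate (single G g) (X.prod X) X.dim c := by
  refine ⟨cls_mem hc.1, ?_⟩
  refine ((ForSmall.pull (act_corr hG X) (zpowersHom Γ g)).and
    (ForSmall.mem ((pull_theory hG (zpowersHom Γ g)).finite X))).mono ?_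
  rintro t ⟨h1, hX⟩ hZ
  have hX' : zpowersHom Γ g t ∈ G.D X := hX
  have hZ' : zpowersHom Γ g t ∈ G.D (X.prod X) := hZ
  have hz : zpowersHom Γ g t ∈ Subgroup.zpowers g := ⟨t.toAdd, rfl⟩
  change G.act (X.prod X) ⟨zpowersHom Γ g t, hZ'⟩ c =
    (G.χ (zpowersHom Γ g t) : W.K) ^ X.dim • c
  apply (corrEquiv W X).injective
  change W.corr _ = W.corr _
  apply LinearMap.ext
  intro b
  obtain ⟨a, rfl⟩ := (G.act X ⟨zpowersHom Γ g t, hX'⟩).surjective b
  rw [← h1 hX' hZ' c a, corr_smul, LinearMap.smul_apply, hc.2 ⟨_, hX'⟩ hz]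

variable (hG : IsGaloisTheory G)
include hG

/-- The elements of a subgroup of finite index commute with these operators. -/
lemma cen_comm {g : Γ} (h : ∀ c, IsTate (single G g) (X.prod X) X.dim c →
    IsTate G (X.prod X) X.dim c) :
    ForSmall fun u => ∀ (hu : u ∈ G.D X), ∀ c ∈ cen G X g, ∀ a,
      G.act X ⟨u, hu⟩ (W.corr c a) = W.corr c (G.act X ⟨u, hu⟩ a) := by
  let b := Module.finBasis W.K (cen G X g)
  have h1 : ∀ i, ForSmall fun u => ∀ (hu : u ∈ G.D X) (a : W.H X),
      G.act X ⟨u, hu⟩ (W.corr (b i : W.H (X.prod X)) a) =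
        W.corr (b i : W.H (X.prod X)) (G.act X ⟨u, hu⟩ a) := by
    intro i
    refine (corr_act hG (h _ (cen_tate hG (b i).2))).mono fun u h2 hu a => ?_
    have h3 := h2 hu hu a
    exact smul_right_injective (W.H X) (pow_ne_zero X.dim (G.χ u).ne_zero) h3
  refine (ForSmall.all h1).mono fun u h2 hu c hc a => ?_
  have h3 : c = ∑ i, b.repr ⟨c, hc⟩ i • (b i : W.H (X.prod X)) := by
    have h4 := congrArg Subtype.val (b.sum_repr ⟨c, hc⟩)
    simp only [AddSubmonoidClass.coe_finsetSum, Submodule.coe_smul] at h4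
    exact h4.symm
  have h5 : ∀ a, W.corr c a = ∑ i, b.repr ⟨c, hc⟩ i • W.corr (b i : W.H (X.prod X)) a := by
    intro a
    have h6 := congrArg (fun c => (corrEquiv W X) c a) h3
    simp only [map_sum, map_smul] at h6
    rw [LinearMap.sum_apply] at h6
    exact h6
  rw [h5, h5, map_sum]
  refine Finset.sum_congr rfl fun i _ => ?_
  rw [map_smul, h2 i hu]

/-- **Virtually abelian image.** -/
theorem virtuallyAbelian {g : Γ} (h : ∀ c, IsTate (single G g) (X.prod X) X.dim c →
    IsTate G (X.prod X) X.dim c) : VirtuallyAbelian G X := by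
  obtain ⟨Δ, hΔ, h1⟩ := cen_comm hG h
  refine ⟨Δ, hΔ, fun s t hs ht a => ?_⟩
  have hcorr : ∀ d : G.D X, ∀ a, W.corr ((corrEquiv W X).symm (G.act X d).toLinearMap) a =
      G.act X d a := fun d a =>
    congrArg (fun f : Module.End W.K (W.H X) => f a) ((corrEquiv W X).apply_symm_apply _)
  have h2 : ∀ d : G.D X, (d : Γ) ∈ Subgroup.zpowers g →
      (corrEquiv W X).symm (G.act X d).toLinearMap ∈ cen G X g := by
    intro d hd
    refine ⟨fun i x hx => ?_, fun d' hd' a => ?_⟩
    · rw [hcorr]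
      exact hG.gr_mem X d i x hx
    · rw [hcorr, hcorr]
      have e : d * d' = d' * d := by
        apply Subtype.ext
        obtain ⟨m, hm⟩ := hd
        obtain ⟨n, hn⟩ := hd'
        change (d : Γ) * d' = d' * d
        rw [← hm, ← hn]
        exact (Commute.zpow_zpow (Commute.refl g) m n)
      change (G.act X d * G.act X d') a = (G.act X d' * G.act X d) a
      rw [← map_mul, ← map_mul, e]
  have h3 : (corrEquiv W X).symm (G.act X s).toLinearMap ∈ cen G X g := by
    refine ⟨fun i x hx => ?_, fun d hd a => ?_⟩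
    · rw [hcorr]
      exact hG.gr_mem X s i x hx
    · rw [hcorr, hcorr]
      have h4 := h1 _ hs s.2 _ (h2 d hd) a
      rw [hcorr, hcorr] at h4
      exact h4
  have h4 := h1 _ ht t.2 _ h3 a
  rw [hcorr, hcorr] at h4
  exact h4.symm

end Pool.Agent.NH34.Res
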