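import Pool.Agent.NH34.Gal.Defs
import Pool.Agent.NH34.Lin.ResDefs

/-!
# Restriction of Galois actions: definitions
-/

open CategoryTheory AlgebraicGeometry

universe u v w w'

namespace Pool.Agent.NH34.Res

open Pool.Agent.H914 Pool.Agent.H914.VarClass Pool.Agent.H914.VarClass.Obj
  Pool.Agent.H914.WeilCohomology
open Pool.Agent.NH34.Lin Pool.Agent.NH34.Gal

variable {k : Type u} [Field k] {𝒱 : VarClass k} {ops : CycleOps 𝒱}
  {W : WeilCohomology.{u, v} ops} {Γ : Type w} [Group Γ] {Γ' : Type w'} [Group Γ']

/-- The restriction of the Galois actions along a homomorphism `φ` from a group `Γ'` to the Galois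
group `Γ` (for instance the inclusion of a subgroup). -/
def pull (G : ActionData W Γ) (φ : Γ' →* Γ) : ActionData W Γ' where
  χ := G.χ.comp φ
  D X := (G.D X).comap φ
  act X := restrictRep φ (G.act X)

/-- The restriction of the Galois actions to the group generated by the element `g`. -/
def single (G : ActionData W Γ) (g : Γ) : ActionData W (Multiplicative ℤ) := pull G (zpowersHom Γ g)

/-- A subgroup of finite index acts on the cohomology of `X` through a commutative group. -/
def VirtuallyAbelian (G : ActionData W Γ) (X : 𝒱.Obj) : Prop := AlmostCommutative (G.act X)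

end Pool.Agent.NH34.Res
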