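import Mathlib

/-!
# Linear algebra: operators whose centraliser is regular
-/

open Polynomial

namespace Pool.Agent.NH34.Res

section Abstract

variable {K V : Type*} [Field K] [AddCommGroup V] [Module K V]

/-- Some power of an operator has the same centraliser as all its powers. -/
lemma exists_stable [FiniteDimensional K V] (A : Module.End K V) : ∃ m : ℕ, 0 < m ∧ ∀ s : ℕ, 0 < s →
    ∀ B : Module.End K V, Commute B (A ^ (m * s)) → Commute B (A ^ m) := by
  let cent : ℕ → Submodule K (Module.End K V) := fun n =>
    { carrier := {B | Commute B (A ^ n)}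
      add_mem' := fun ha hb => Commute.add_left ha hb
      zero_mem' := Commute.zero_left _
      smul_mem' := fun r B hB => Commute.smul_left hB r }
  let f : ℕ →o Submodule K (Module.End K V) :=
    { toFun := fun n => cent n.factorial
      monotone' := fun a b hab B hB => by
        obtain ⟨t, ht⟩ := Nat.factorial_dvd_factorial hab
        change Commute B (A ^ b.factorial)
        rw [ht, pow_mul]
        exact Commute.pow_right hB t }
  obtain ⟨n, hn⟩ := monotone_stabilizes_iff_noetherian.2
    (inferInstance : IsNoetherian K (Module.End K V)) f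
  refine ⟨n.factorial, n.factorial_pos, fun s hs B hB => ?_⟩
  have h1 : B ∈ f (max n (n.factorial * s)) := by
    change Commute B (A ^ (max n (n.factorial * s)).factorial)
    obtain ⟨t, ht⟩ := Nat.dvd_factorial (Nat.mul_pos n.factorial_pos hs)
      (le_max_right n (n.factorial * s))
    rw [ht, pow_mul]
    exact Commute.pow_right hB t
  rw [← hn _ (le_max_left _ _)] at h1
  exact h1

lemma nil_zero {N φ : Module.End K V} (h : N * φ * N = N) (hc : Commute N φ)
    (hN : IsNilpotent N) : N = 0 := by
  obtain ⟨k, hk⟩ := hN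
  have h1 : ∀ j : ℕ, N = N ^ (j + 1) * φ ^ j := by
    intro j
    induction j with
    | zero => rw [zero_add, pow_one, pow_zero, mul_one]
    | succ j ih =>
      have h2 : N * N * φ = N := by
        rw [mul_assoc, hc.eq, ← mul_assoc]
        exact h
      calc N = N ^ (j + 1) * φ ^ j := ih
        _ = N ^ j * (N * N * φ) * φ ^ j := by rw [h2, pow_succ]
        _ = N ^ (j + 1 + 1) * φ ^ (j + 1) := by
          rw [pow_succ N (j + 1), pow_succ N j, pow_succ' φ j]
          simp only [mul_assoc]
  rw [h1 k, pow_succ, hk, zero_mul, zero_mul]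

lemma semisimple_of_reduced [FiniteDimensional K V] {A : Module.End K V}
    (h : ∀ p : K[X], IsNilpotent (aeval A p) → aeval A p = 0) : A.IsSemisimple := by
  have h1 : IsRadical (minpoly K A) := by
    intro n p hp
    rw [minpoly.dvd_iff] at hp ⊢
    apply h
    exact ⟨n, by rw [← map_pow]; exact hp⟩
  exact Module.End.isSemisimple_of_squarefree_aeval_eq_zero
    (h1.squarefree (minpoly.ne_zero (Algebra.IsIntegral.isIntegral A))) (minpoly.aeval K A)

lemma exists_projection {A : Module.End K V} (hA : A.IsSemisimple) {U : Submodule K V}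
    (hU : ∀ x ∈ U, A x ∈ U) : ∃ p : Module.End K V, (∀ x, p (A x) = A (p x)) ∧
      (∀ x, p x ∈ U) ∧ ∀ x ∈ U, p x = x := by
  obtain ⟨q, hq, hc⟩ := Module.End.isSemisimple_iff.1 hA U hU
  let p : Module.End K V := U.subtype ∘ₗ Submodule.projectionOnto U q hc
  have hp : ∀ x, p x = (Submodule.projectionOnto U q hc x : V) := fun x => rfl
  have h1 : ∀ x ∈ U, p x = x := by
    intro x hx
    rw [hp]
    exact congrArg Subtype.val (Submodule.projectionOnto_apply_left hc ⟨x, hx⟩)
  have h2 : ∀ x ∈ q, p x = 0 := by
    intro x hx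
    rw [hp, (Submodule.projectionOnto_apply_eq_zero_iff hc).2 hx]
    rfl
  refine ⟨p, fun x => ?_, fun x => (Submodule.projectionOnto U q hc x).2, h1⟩
  obtain ⟨a, b, ha, hb, rfl⟩ := Submodule.codisjoint_iff_exists_add_eq.1 hc.codisjoint x
  rw [map_add A, map_add p, map_add p, map_add A, h1 _ (hU a ha), h1 a ha, h2 _ (hq hb), h2 b hb,
    map_zero]

end Abstract

end Pool.Agent.NH34.Res
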