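import Pool.Agent.NH34.Res.Comm
import Pool.Agent.NH34.Res.Lin
import Pool.Agent.NH34.SS.Core

/-!
# Semisimplicity from Tate classes for one element
-/

open CategoryTheory AlgebraicGeometry

universe u v w w'

namespace Pool.Agent.NH34.Res

open Module Polynomial
open Pool.Agent.H914 Pool.Agent.H914.VarClass Pool.Agent.H914.VarClass.Obj
  Pool.Agent.H914.WeilCohomology
open Pool.Agent.NH34.Lin Pool.Agent.NH34.Gal Pool.Agent.NH34.SS Pool.Agent.NH34.ZO
  Pool.Agent.NH34.Reg
open Pool.Agent.Y133.Half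
open Pool.Agent.Y133.Half.Sys (Nondeg Op mem_Op)

variable {k : Type u} [Field k] {𝒱 : VarClass k} {ops : CycleOps 𝒱}
  {W : WeilCohomology.{u, v} ops} {Γ : Type w} [Group Γ]
  {G : ActionData W Γ} {X Y Z : 𝒱.Obj}

lemma small_dvd {N : ℕ} (hN : 0 < N) :
    ForSmall fun t : Multiplicative ℤ => (N : ℤ) ∣ t.toAdd := by
  have : NeZero N := ⟨hN.ne'⟩
  let f : Multiplicative ℤ →* Multiplicative (ZMod N) :=
    AddMonoidHom.toMultiplicative (Int.castAddHom (ZMod N))
  refine ⟨f.ker, Subgroup.finiteIndex_ker f, fun t ht => ?_⟩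
  exact (ZMod.intCast_zmod_eq_zero_iff_dvd _ _).1 ht

/-- The operator of an element of the group. -/
noncomputable def opE (G : ActionData W Γ) (X : 𝒱.Obj) (d : G.D X) : Module.End W.K (W.H X) :=
  (G.act X d).toLinearMap

lemma opE_apply (d : G.D X) (x : W.H X) : opE G X d x = G.act X d x := rfl

lemma opE_mul (d d' : G.D X) : opE G X (d * d') = opE G X d * opE G X d' := by
  unfold opE
  rw [map_mul]
  rfl

lemma opE_one : opE G X 1 = 1 := by
  unfold opE
  rw [map_one]
  rfl

lemma opE_pow (d : G.D X) (n : ℕ) : opE G X (d ^ n) = opE G X d ^ n := by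
  induction n with
  | zero => rw [pow_zero, pow_zero, opE_one]
  | succ n ih => rw [pow_succ, pow_succ, opE_mul, ih]

/-- The elements whose operators commute with `B`. -/
def stab (G : ActionData W Γ) (X : 𝒱.Obj) (B : Module.End W.K (W.H X)) : Subgroup (G.D X) where
  carrier := {d | Commute B (opE G X d)}
  mul_mem' := by
    intro a b ha hb
    change Commute _ _
    rw [opE_mul]
    exact Commute.mul_right ha hb
  one_mem' := by
    change Commute _ _
    rw [opE_one]
    exact Commute.one_right _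
  inv_mem' := by
    intro a ha
    have ha : Commute B (opE G X a) := ha
    change Commute B (opE G X a⁻¹)
    have h1 : opE G X a * opE G X a⁻¹ = 1 := by rw [← opE_mul, mul_inv_cancel, opE_one]
    have h2 : opE G X a⁻¹ * opE G X a = 1 := by rw [← opE_mul, inv_mul_cancel, opE_one]
    rw [Commute, SemiconjBy]
    calc B * opE G X a⁻¹ = opE G X a⁻¹ * opE G X a * (B * opE G X a⁻¹) := by rw [h2, one_mul]
      _ = opE G X a⁻¹ * (opE G X a * B) * opE G X a⁻¹ := by simp only [mul_assoc]
      _ = opE G X a⁻¹ * (B * opE G X a) * opE G X a⁻¹ := by rw [ha.eq]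
      _ = opE G X a⁻¹ * B * (opE G X a * opE G X a⁻¹) := by simp only [mul_assoc]
      _ = opE G X a⁻¹ * B := by rw [h1, mul_one]

/-- The class of an operator of degree zero which commutes with a power of `g` is a Tate class for
`g`. -/
lemma comm_tate (hG : IsGaloisTheory G) {g : Γ} {d : G.D X} {M : ℕ} (hM : 0 < M)
    (hd : (d : Γ) = g ^ M) {B : Module.End W.K (W.H X)} (h0 : ∀ i, ∀ x ∈ W.gr X i, B x ∈ W.gr X i)
    (hB : Commute B (opE G X d)) :
    IsTate (single G g) (X.prod X) X.dim ((corrEquiv W X).symm B) := by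
  have hcorr : ∀ a, W.corr ((corrEquiv W X).symm B) a = B a := fun a =>
    congrArg (fun f : Module.End W.K (W.H X) => f a) ((corrEquiv W X).apply_symm_apply _)
  set c := (corrEquiv W X).symm B with hc
  refine ⟨cls_mem fun i x hx => by rw [hcorr]; exact h0 i x hx, ?_⟩
  refine (((ForSmall.pull (act_corr hG X) (zpowersHom Γ g)).and
    (ForSmall.mem ((pull_theory hG (zpowersHom Γ g)).finite X))).and (small_dvd hM)).mono ?_
  rintro t ⟨⟨h1, hX⟩, r, hr⟩ hZ
  have hX' : zpowersHom Γ g t ∈ G.D X := hX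
  have hZ' : zpowersHom Γ g t ∈ G.D (X.prod X) := hZ
  change G.act (X.prod X) ⟨zpowersHom Γ g t, hZ'⟩ c =
    (G.χ (zpowersHom Γ g t) : W.K) ^ X.dim • c
  have hst : (⟨zpowersHom Γ g t, hX'⟩ : G.D X) ∈ stab G X B := by
    have e1 : (⟨zpowersHom Γ g t, hX'⟩ : G.D X) = d ^ r := by
      apply Subtype.ext
      rw [SubgroupClass.coe_zpow, hd]
      change g ^ (t.toAdd) = _
      rw [hr, zpow_mul, zpow_natCast]
    rw [e1]
    exact Subgroup.zpow_mem _ hB r
  apply (corrEquiv W X).injective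
  change W.corr _ = W.corr _
  apply LinearMap.ext
  intro b
  obtain ⟨a, rfl⟩ := (G.act X ⟨zpowersHom Γ g t, hX'⟩).surjective b
  rw [← h1 hX' hZ' c a, corr_smul, LinearMap.smul_apply, hcorr, hcorr]
  congr 1
  exact (congrArg (fun f : Module.End W.K (W.H X) => f a) (Commute.eq hst)).symm

/-- The operator of a Tate class for `g` commutes with a power of `g`. -/
lemma tate_comm (hG : IsGaloisTheory G) {g : Γ} {d : G.D X} {M : ℕ}
    (hd : (d : Γ) = g ^ M) {c : W.H (X.prod X)} (hc : IsTate (single G g) (X.prod X) X.dim c) :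
    ∃ n : ℕ, 0 < n ∧ Commute (W.corr c) (opE G X d ^ n) := by
  obtain ⟨Δ, hΔ, h⟩ := corr_act (pull_theory hG (zpowersHom Γ g)) hc
  obtain ⟨n, hn, -, hn2⟩ := Subgroup.exists_pow_mem_of_index_ne_zero hΔ.index_ne_zero
    (Multiplicative.ofAdd (1 : ℤ))
  refine ⟨n, hn, ?_⟩
  have h1 : ((Multiplicative.ofAdd (1 : ℤ)) ^ n) ^ M ∈ Δ := Subgroup.pow_mem _ hn2 M
  have e0 : zpowersHom Γ g (((Multiplicative.ofAdd (1 : ℤ)) ^ n) ^ M) = (d : Γ) ^ n := by
    rw [map_pow, map_pow, hd, ← pow_mul, ← pow_mul, mul_comm]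
    change (g ^ (1 : ℤ)) ^ _ = _
    rw [zpow_one]
  have hX : zpowersHom Γ g (((Multiplicative.ofAdd (1 : ℤ)) ^ n) ^ M) ∈ G.D X := by
    rw [e0]
    exact Subgroup.pow_mem _ d.2 n
  have h2 : ∀ a, (G.χ (zpowersHom Γ g _) : W.K) ^ X.dim • G.act X ⟨_, hX⟩ (W.corr c a) =
        (G.χ (zpowersHom Γ g _) : W.K) ^ X.dim • W.corr c (G.act X ⟨_, hX⟩ a) := fun a =>
    h _ h1 hX hX a
  have e1 : (⟨zpowersHom Γ g (((Multiplicative.ofAdd (1 : ℤ)) ^ n) ^ M), hX⟩ : G.D X) = d ^ n := by
    apply Subtype.ext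
    rw [SubgroupClass.coe_pow]
    exact e0
  rw [← opE_pow]
  apply LinearMap.ext
  intro a
  have h3 := smul_right_injective (W.H X) (pow_ne_zero X.dim (Units.ne_zero (G.χ (zpowersHom Γ g _))))
    (h2 a)
  rw [e1] at h3
  exact h3.symm

lemma commute_aeval {K V : Type*} [Field K] [AddCommGroup V] [Module K V] {A B : Module.End K V}
    (h : Commute B A) (p : K[X]) : Commute B (aeval A p) := by
  induction p using Polynomial.induction_on' with
  | add p q hp hq => rw [map_add]; exact hp.add_right hq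
  | monomial n a =>
    rw [aeval_monomial, Algebra.algebraMap_eq_smul_one, smul_mul_assoc, one_mul]
    exact (h.pow_right n).smul_right a

lemma gr_aeval {A : Module.End W.K (W.H X)} (h : ∀ i, ∀ x ∈ W.gr X i, A x ∈ W.gr X i)
    (p : W.K[X]) : ∀ i, ∀ x ∈ W.gr X i, aeval A p x ∈ W.gr X i := by
  have hp : ∀ n : ℕ, ∀ i, ∀ x ∈ W.gr X i, (A ^ n) x ∈ W.gr X i := by
    intro n
    induction n with
    | zero => intro i x hx; exact hx
    | succ n ih =>
      intro i x hx
      rw [pow_succ']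
      exact h i _ (ih i x hx)
  intro i x hx
  induction p using Polynomial.induction_on' with
  | add p q hp hq => rw [map_add]; exact Submodule.add_mem _ hp hq
  | monomial n a =>
    rw [aeval_monomial, Algebra.algebraMap_eq_smul_one, smul_mul_assoc, one_mul]
    exact Submodule.smul_mem _ _ (hp n i x hx)

/-- Operators of degree zero commute with the projectors to the degrees. -/
lemma proj_comm {A : Module.End W.K (W.H X)} (h : ∀ i, ∀ x ∈ W.gr X i, A x ∈ W.gr X i) (i : ℕ)
    (x : W.H X) : proj (W.isInternal X) i (A x) = A (proj (W.isInternal X) i x) := by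
  refine gr_induction (W.isInternal X) (p := fun x => proj (W.isInternal X) i (A x) =
    A (proj (W.isInternal X) i x)) ?_ ?_ x
  · intro j x hx
    by_cases hj : j = i
    · subst hj
      rw [proj_same _ (h _ x hx), proj_same _ hx]
    · rw [proj_ne _ (h _ x hx) hj, proj_ne _ hx hj, map_zero]
  · intro x y hx hy
    rw [map_add, map_add, hx, hy, map_add, map_add]

variable (hG : IsGaloisTheory G)
include hG

/-- A power of `g` acts through a semisimple operator whose centraliser consists of Tate operators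
for `g`. -/
theorem exists_semisimple {g : Γ}
    (hnd : Nondeg (tatePred (pull_theory hG (zpowersHom Γ g))).sys (X.prod X)) :
    ∃ (d : G.D X) (M : ℕ), 0 < M ∧ (d : Γ) = g ^ M ∧ (opE G X d).IsSemisimple := by
  have := hG.finite X
  obtain ⟨w, hw, -, hw2⟩ := Subgroup.exists_pow_mem_of_index_ne_zero
    (hG.finite X).index_ne_zero g
  let d₀ : G.D X := ⟨g ^ w, hw2⟩
  obtain ⟨m, hm, hst⟩ := exists_stable (opE G X d₀)
  have hd : ((d₀ ^ m : G.D X) : Γ) = g ^ (w * m) := by
    rw [SubgroupClass.coe_pow, pow_mul]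
  refine ⟨d₀ ^ m, w * m, Nat.mul_pos hw hm, hd, ?_⟩
  have hgr : ∀ i, ∀ x ∈ W.gr X i, opE G X (d₀ ^ m) x ∈ W.gr X i := fun i x hx =>
    hG.gr_mem X _ i x hx
  apply semisimple_of_reduced
  intro p hp
  set A := opE G X (d₀ ^ m) with hA
  set N := aeval A p with hN
  have hNgr := gr_aeval hgr p
  have hNA : Commute N A := (commute_aeval (Commute.refl A) p).symm
  have hNt := comm_tate hG (Nat.mul_pos hw hm) hd hNgr hNA
  have hNc : W.corr ((corrEquiv W X).symm N) = N := (corrEquiv W X).apply_symm_apply _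
  have hNS : N ∈ (tatePred (pull_theory hG (zpowersHom Γ g))).sys.Op X X :=
    mem_Op.2 ⟨_, ClassPred.sp_of (Q := tatePred (pull_theory hG (zpowersHom Γ g))) hNt, hNc⟩
  obtain ⟨φ, hφ, hreg⟩ := exists_regular (Q := X) (X := X) hnd hNS
  obtain ⟨c, hc, hce⟩ := mem_Op.1 hφ
  have hc0 : IsTate (single G g) (X.prod X) X.dim
      (proj (W.isInternal (X.prod X)) (2 * X.dim) c) :=
    ClassPred.sp_proj (Q := tatePred (pull_theory hG (zpowersHom Γ g))) hc X.dim
  set φ₀ : Module.End W.K (W.H X) :=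
    W.corr (proj (W.isInternal (X.prod X)) (2 * X.dim) c) with hφ0
  obtain ⟨n, hn, hcn⟩ := tate_comm hG hd hc0
  have hcA : Commute φ₀ A := by
    have h1 : Commute φ₀ (opE G X d₀ ^ (m * n)) := by
      rw [pow_mul, ← opE_pow]
      exact hcn
    have h2 := hst n hn φ₀ h1
    rw [hA, opE_pow]
    exact h2
  refine nil_zero (φ := φ₀) ?_ (commute_aeval hcA p).symm hp
  apply LinearMap.ext
  intro x
  refine gr_induction (W.isInternal X) (p := fun x => (N * φ₀ * N) x = N x) ?_ ?_ x
  · intro i x hx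
    change N (φ₀ (N x)) = N x
    have h1 : φ₀ (N x) = proj (W.isInternal X) i (φ (N x)) := by
      rw [hφ0, ← proj_corr (hNgr i x hx), hce]
    rw [h1, ← proj_comm hNgr]
    have h2 : N (φ (N x)) = N x := congrArg (fun f : Module.End W.K (W.H X) => f x) hreg
    rw [h2, proj_same _ (hNgr i x hx)]
  · intro x y hx hy
    rw [map_add, map_add, hx, hy]

/-- **Semisimplicity.** -/
theorem semisimple_of_single {g : Γ}
    (hnd : Nondeg (tatePred (pull_theory hG (zpowersHom Γ g))).sys (X.prod X))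
    (h : ∀ c, IsTate (single G g) (X.prod X) X.dim c → IsTate G (X.prod X) X.dim c) (i : ℕ) :
    SemisimpleIn G X i := by
  obtain ⟨d, M, hM, hd, hss⟩ := exists_semisimple (X := X) hG hnd
  intro U hU hst
  have hgr : ∀ i, ∀ x ∈ W.gr X i, opE G X d x ∈ W.gr X i := fun i x hx =>
    hG.gr_mem X _ i x hx
  obtain ⟨p, hp1, hp2, hp3⟩ := exists_projection hss (U := U) fun x hx => hst d x hx
  set B : Module.End W.K (W.H X) := p ∘ₗ proj (W.isInternal X) i with hB
  have hBgr : ∀ j, ∀ x ∈ W.gr X j, B x ∈ W.gr X j := by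
    intro j x hx
    by_cases hj : j = i
    · subst hj
      exact hU (hp2 _)
    · have h1 : B x = 0 := by
        change p (proj (W.isInternal X) i x) = 0
        rw [proj_ne _ hx hj, map_zero]
      rw [h1]
      exact Submodule.zero_mem _
  have hBA : Commute B (opE G X d) := by
    apply LinearMap.ext
    intro x
    change p (proj (W.isInternal X) i (opE G X d x)) = opE G X d (p (proj (W.isInternal X) i x))
    rw [proj_comm hgr, hp1]
  have hBt := h _ (comm_tate hG hM hd hBgr hBA)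
  have hBc : ∀ x, W.corr ((corrEquiv W X).symm B) x = B x := fun a =>
    congrArg (fun f : Module.End W.K (W.H X) => f a) ((corrEquiv W X).apply_symm_apply _)
  obtain ⟨Δ, hΔ, hΔc⟩ := corr_act hG hBt
  let ρ : G.D X →* Module.End W.K (W.H X) :=
    { toFun := fun d => opE G X d
      map_one' := opE_one
      map_mul' := fun a b => opE_mul a b }
  obtain ⟨U', hU's, hU'c⟩ := exists_stable_compl ρ U
    (fun g x hx => hst g x hx) B
    (fun x => hp2 _)
    (fun x hx => by rw [hB, LinearMap.comp_apply, proj_same _ (hU hx)]; exact hp3 x hx)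
    (Δ.subgroupOf (G.D X))
    (fun g hg x => by
      have h3 := hΔc g hg g.2 g.2 x
      have h4 := smul_right_injective (W.H X) (pow_ne_zero X.dim (G.χ (g : Γ)).ne_zero) h3
      change G.act X g (W.corr ((corrEquiv W X).symm B) x) =
        W.corr ((corrEquiv W X).symm B) (G.act X g x) at h4
      rw [hBc, hBc] at h4
      exact h4.symm)
  refine ⟨U' ⊓ W.gr X i, inf_le_right, fun g x hx => ⟨hU's g x hx.1, hG.gr_mem X g i x hx.2⟩, ?_, ?_⟩
  · rw [← inf_assoc, hU'c.inf_eq_bot, bot_inf_eq]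
  · rw [← sup_inf_assoc_of_le U' hU, hU'c.sup_eq_top, top_inf_eq]

end Pool.Agent.NH34.Res
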