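import Pool.Agent.NH34.Res.SDefs
import Pool.Agent.NH34.Res.Comm
import Pool.Agent.NH34.Res.Semi
import Pool.Agent.NH34.Cmp.AlgFin

/-!
# The law of specialisation for Tate classes
-/

open CategoryTheory AlgebraicGeometry

universe u w w'

namespace Pool.Agent.NH34.Res

open Pool.Agent.H914 Pool.Agent.H914.VarClass Pool.Agent.H914.VarClass.Obj
  Pool.Agent.H914.WeilCohomology
open Pool.Agent.NH34.Lin Pool.Agent.NH34.Gal Pool.Agent.NH34.Law Pool.Agent.NH34.Cmp
  Pool.Agent.NH34.SS
open Pool.Agent.Y133.Half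

variable {k : Type u} [Field k] {𝒱 : VarClass k} {ops : CycleOps 𝒱}
  {W : WeilCohomology.{u, 0} ops} {Γ : Type w} [Group Γ] {Γ' : Type w'} [Group Γ']
  {G : ActionData W Γ} {X Z : 𝒱.Obj}

lemma tateIsCycle_iff (hG : IsGaloisTheory G) : TateIsCycle G Z ↔
    (tatePred hG).sys.C Z = Pool.Agent.H281R3.HT.algSpan W Z := by
  rw [ClassPred.sp_eq_iff]
  constructor
  · intro h j c hc
    exact span_cyc_iff.1 (h j c hc)
  · intro h j c hc
    exact span_cyc_iff.2 (h j c hc)

/-- **The law of specialisation for Tate classes.** -/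
theorem specialisation [TopologicalSpace Γ] [IsTopologicalGroup Γ] [CompactSpace Γ]
    [TotallyDisconnectedSpace Γ] {ℓ : ℕ} [Fact ℓ.Prime] {e : W.K ≃+* ℚ_[ℓ]}
    (hG : IsGaloisTheory G) (hc : IsContinuousTheory e G) (X : 𝒱.Obj) [Nontrivial (W.H X)]
    (φ : Γ' →* Γ) :
    ((∀ n, TatesLift G φ (pw X n)) ∨
      Lin.Negligible (fun n => tateRk G (pw X n)) (fun n => tateNr (pull G φ) (pw X n))) ∧
    ∃ M : ℕ∞, 1 ≤ M ∧
      HasIndex (fun n => tateNr (pull G φ) (pw X n)) (fun n => cycNum W (pw X n)) M ∧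
      (M = 1 ↔ ∀ n, TateIsCycle (pull G φ) (pw X n) ∧ HomIsNum W (pw X n)) ∧
      (M ≠ ⊤ → ∀ n, TatesLift G φ (pw X n) ∧ TateIsPerfect G (pw X n) ∧
        HomIsNum W (pw X n)) := by
  have h0 : (∀ n, TatesLift G φ (pw X n)) ∨
      Lin.Negligible (fun n => tateRk G (pw X n)) (fun n => tateNr (pull G φ) (pw X n)) := by
    by_cases h : Lin.Negligible (fun n => tateRk G (pw X n))
      (fun n => tateNr (pull G φ) (pw X n))
    · exact Or.inr h
    · exact Or.inl fun n j c hcj => special hG hc φ h hcj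
  refine ⟨h0, ?_⟩
  have hG' := pull_theory hG φ
  obtain ⟨M, h1, h2, h3, h4⟩ := pred_index W (tatePred hG') X
  have e1 : (fun n => cycNum W (pw X n)) = fun n => cycRank ops (pw X n) :=
    funext fun n => cycNum_eq W _
  have hlift : M ≠ ⊤ → ∀ n, TatesLift G φ (pw X n) := by
    intro hM n
    rcases h0 with h | h
    · exact h n
    · refine absurd ?_ hM
      have hk : ∀ n, cycRank ops (pw X n) ≤ tateRk G (pw X n) := fun n => cycRank_le hG _
      exact HasIndex.unique h2 (hasIndex_top' (Cmp.Negligible.mono h hk) fun n =>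
        (tatePred hG').sys.finrank_pos_pw n)
  refine ⟨M, h1, ?_, ?_, fun hM n => ⟨hlift hM n, ?_, ?_⟩⟩
  · rw [e1]
    exact h2
  · rw [h3]
    exact forall_congr' fun n => and_congr (tateIsCycle_iff hG').symm (homIsNum_iff W).symm
  · rcases (tatePred hG').sys.num_or (tatePred hG').sys (fun _ => le_rfl) X with h | h
    · have h5 := h n
      rw [tateNull_eq hG'] at h5
      have h6 : tateSpace (pull G φ) (pw X n) = tateSpace G (pw X n) := by
        apply le_antisymm
        · exact Submodule.span_mono fun c ⟨j, hj⟩ => ⟨j, hlift hM n j c hj⟩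
        · exact Submodule.span_mono fun c ⟨j, hj⟩ => ⟨j, IsTate.pull hj φ⟩
      unfold tateNull at h5
      rw [h6] at h5
      exact h5
    · refine absurd ?_ hM
      have hk : ∀ n, cycRank ops (pw X n) ≤ (tatePred hG').sys.a (pw X n) := by
        intro n
        rw [tateRank_eq hG']
        exact cycRank_le hG' _
      exact HasIndex.unique h2 (hasIndex_top' (Cmp.Negligible.mono h hk) fun n =>
        (tatePred hG').sys.finrank_pos_pw n)
  · exact (homIsNum_iff W).2 (h4 hM n)

/-- **The law for one element of the Galois group.** -/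
theorem one_element [TopologicalSpace Γ] [IsTopologicalGroup Γ] [CompactSpace Γ]
    [TotallyDisconnectedSpace Γ] {ℓ : ℕ} [Fact ℓ.Prime] {e : W.K ≃+* ℚ_[ℓ]}
    (hG : IsGaloisTheory G) (hc : IsContinuousTheory e G) (X : 𝒱.Obj) [Nontrivial (W.H X)]
    (g : Γ) : (VirtuallyAbelian G X ∧ ∀ i, SemisimpleIn G X i) ∨
      (Lin.Negligible (fun n => tateRk G (pw X n)) (fun n => tateNr (single G g) (pw X n)) ∧
        HasIndex (fun n => tateNr (single G g) (pw X n)) (fun n => cycNum W (pw X n)) ⊤) := by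
  by_cases h : Lin.Negligible (fun n => tateRk G (pw X n))
    (fun n => tateNr (single G g) (pw X n))
  · refine Or.inr ⟨h, ?_⟩
    have e1 : (fun n => cycNum W (pw X n)) = fun n => cycRank ops (pw X n) :=
      funext fun n => cycNum_eq W _
    rw [e1]
    have hk : ∀ n, cycRank ops (pw X n) ≤ tateRk G (pw X n) := fun n => cycRank_le hG _
    exact hasIndex_top' (Cmp.Negligible.mono h hk) fun n =>
      (tatePred (pull_theory hG (zpowersHom Γ g))).sys.finrank_pos_pw n
  · have hT : ∀ c, IsTate (single G g) (X.prod X) X.dim c → IsTate G (X.prod X) X.dim c :=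
      fun c hcj => special hG hc (zpowersHom Γ g) h (n := 1) hcj
    refine Or.inl ⟨virtuallyAbelian hG hT, semisimple_of_single hG ?_ hT⟩
    have hG' := pull_theory hG (zpowersHom Γ g)
    rcases (tatePred hG').sys.num_or (tatePred hG').sys (fun _ => le_rfl) X with h1 | h1
    · intro x hx hx'
      have h2 : x ∈ (tatePred hG').sys.Num (pw X 1) := ⟨hx, hx'⟩
      rw [h1 1] at h2
      exact (Submodule.mem_bot _).1 h2
    · refine absurd ?_ h
      have h5 : SS.Negligible (fun n => (tatePred hG').sys.a (pw X n))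
        (fun n => tateNr (single G g) (pw X n)) := h1
      refine Cmp.Negligible.mono h5 fun n => ?_
      have h3 := a_mono (S := (tatePred hG).sys) (T := (tatePred hG').sys)
        (fun Z => Submodule.span_mono fun c ⟨j, hj⟩ => ⟨j, IsTate.pull hj _⟩) (pw X n)
      rw [tateRank_eq hG] at h3
      exact h3

end Pool.Agent.NH34.Res
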