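import Pool.Agent.NH34.Res.Defs
import Pool.Agent.NH34.Cmp.AlgDefs

/-!
# Tate classes for restricted Galois actions: definitions
-/

open CategoryTheory AlgebraicGeometry

universe u w w'

namespace Pool.Agent.NH34.Res

open Pool.Agent.H914 Pool.Agent.H914.VarClass Pool.Agent.H914.VarClass.Obj
  Pool.Agent.H914.WeilCohomology
open Pool.Agent.NH34.Lin Pool.Agent.NH34.Gal Pool.Agent.NH34.Law

variable {k : Type u} [Field k] {𝒱 : VarClass k} {ops : CycleOps 𝒱}
  {W : WeilCohomology.{u, 0} ops} {Γ : Type w} [Group Γ] {Γ' : Type w'} [Group Γ']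

/-- All Tate classes on `X` for the restriction of the Galois actions along `φ` are Tate classes. -/
def TatesLift (G : ActionData W Γ) (φ : Γ' →* Γ) (X : 𝒱.Obj) : Prop :=
  ∀ j c, IsTate (pull G φ) X j c → IsTate G X j c

/-- The rank of the intersection form on the space spanned by the Tate classes on `X`. -/
noncomputable def tateRk (G : ActionData W Γ) (X : 𝒱.Obj) : ℕ := rankBy (W.tr X) (IsTate G X)

/-- The number of linearly independent Tate classes on `X`. -/
noncomputable def tateNr (G : ActionData W Γ) (X : 𝒱.Obj) : ℕ := numOf W.K (IsTate G X)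

/-- All Tate classes on `X` are linear combinations of classes of algebraic cycles. -/
def TateIsCycle (G : ActionData W Γ) (X : 𝒱.Obj) : Prop :=
  AllCombs W.K (RingHom.id (W.H X)) (IsCycleClass W X) (IsTate G X)

end Pool.Agent.NH34.Res
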